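import Mathlib

set_option autoImplicit false

/-!
# `U`-bootstrap percolation on `ℤ ^ d`: deterministic part
-/

namespace Pool.Agent.H37Z.UB

/-- The sites of `ℤ ^ d`. -/
abbrev Site (d : ℕ) := Fin d → ℤ

variable {d : ℕ}

/-- One step of the `U`-bootstrap process. -/
def step (U : Finset (Finset (Site d))) (A : Set (Site d)) : Set (Site d) :=
  A ∪ {x | ∃ X ∈ U, ∀ y ∈ X, x + y ∈ A}

/-- `A_t`. -/
def iter (U : Finset (Finset (Site d))) (A : Set (Site d)) : ℕ → Set (Site d)
  | 0 => A
  | t + 1 => step U (iter U A t)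

/-- The closure `[A]`. -/
def cl (U : Finset (Finset (Site d))) (A : Set (Site d)) : Set (Site d) := ⋃ t, iter U A t

/-- The box `x + [-n, n] ^ d`. -/
def bx (n : ℕ) (x : Site d) : Set (Site d) := {y | ∀ i, |y i - x i| ≤ n}

lemma mem_bx {n : ℕ} {x y : Site d} : y ∈ bx n x ↔ ∀ i, |y i - x i| ≤ n := Iff.rfl

variable {U : Finset (Finset (Site d))}

lemma step_mono {A B : Set (Site d)} (h : A ⊆ B) : step U A ⊆ step U B := by
  rintro x (hx | ⟨X, hX, hx⟩)
  · exact Or.inl (h hx)
  · exact Or.inr ⟨X, hX, fun y hy => h (hx y hy)⟩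

lemma iter_mono {A B : Set (Site d)} (h : A ⊆ B) (t : ℕ) : iter U A t ⊆ iter U B t := by
  induction t with
  | zero => exact h
  | succ t ih => exact step_mono ih

lemma iter_succ (A : Set (Site d)) (t : ℕ) : iter U A t ⊆ iter U A (t + 1) :=
  fun _ hx => Or.inl hx

lemma iter_le (A : Set (Site d)) : Monotone (iter U A) :=
  monotone_nat_of_le_succ (iter_succ A)

lemma mem_cl {A : Set (Site d)} {x : Site d} : x ∈ cl U A ↔ ∃ t, x ∈ iter U A t := by
  simp [cl]

lemma cl_mono {A B : Set (Site d)} (h : A ⊆ B) : cl U A ⊆ cl U B := by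
  intro x hx
  obtain ⟨t, ht⟩ := mem_cl.1 hx
  exact mem_cl.2 ⟨t, iter_mono h t ht⟩

lemma subset_cl (A : Set (Site d)) : A ⊆ cl U A := fun _ hx => mem_cl.2 ⟨0, hx⟩

/-- The closure is closed. -/
lemma cl_closed {A : Set (Site d)} {x : Site d} {X : Finset (Site d)} (hX : X ∈ U)
    (h : ∀ y ∈ X, x + y ∈ cl U A) : x ∈ cl U A := by
  have h1 : ∀ y ∈ X, ∃ t, x + y ∈ iter U A t := fun y hy => mem_cl.1 (h y hy)
  choose! f hf using h1
  refine mem_cl.2 ⟨X.sup f + 1, Or.inr ⟨X, hX, fun y hy => ?_⟩⟩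
  exact iter_le A (Finset.le_sup hy) (hf y hy)

/-- If the complement of `S` is closed under the rules and contains `A`, it contains `[A]`. -/
lemma cl_subset {A S : Set (Site d)} (hA : A ⊆ S)
    (hS : ∀ x, (∃ X ∈ U, ∀ y ∈ X, x + y ∈ S) → x ∈ S) : cl U A ⊆ S := by
  intro x hx
  obtain ⟨t, ht⟩ := mem_cl.1 hx
  clear hx
  induction t generalizing x with
  | zero => exact hA ht
  | succ t ih =>
    rcases ht with ht | ⟨X, hX, ht⟩
    · exact ih ht
    · exact hS x ⟨X, hX, fun y hy => ih (ht y hy)⟩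

/-- All vectors of all rules have sup norm at most `R`. -/
def Range (U : Finset (Finset (Site d))) (R : ℕ) : Prop :=
  ∀ X ∈ U, ∀ y ∈ X, ∀ i, |y i| ≤ (R : ℤ)

lemma exists_range (U : Finset (Finset (Site d))) : ∃ R : ℕ, 1 ≤ R ∧ Range U R := by
  refine ⟨(U.sup fun X => X.sup fun y => Finset.univ.sup fun i => (y i).natAbs) + 1, by omega, ?_⟩
  intro X hX y hy i
  have h1 : (y i).natAbs ≤ Finset.univ.sup fun i => (y i).natAbs :=
    Finset.le_sup (f := fun i => (y i).natAbs) (Finset.mem_univ i)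
  have h2 : (Finset.univ.sup fun i => (y i).natAbs) ≤
      X.sup fun y => Finset.univ.sup fun i => (y i).natAbs :=
    Finset.le_sup (f := fun y : Site d => Finset.univ.sup fun i => (y i).natAbs) hy
  have h3 : (X.sup fun y => Finset.univ.sup fun i => (y i).natAbs) ≤
      U.sup fun X => X.sup fun y => Finset.univ.sup fun i => (y i).natAbs :=
    Finset.le_sup (f := fun X : Finset (Site d) =>
      X.sup fun y => Finset.univ.sup fun i => (y i).natAbs) hX
  have h4 : |y i| = ((y i).natAbs : ℤ) := (Int.natCast_natAbs _).symm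
  rw [h4]
  exact_mod_cast (h1.trans (h2.trans h3)).trans (Nat.le_succ _)

/-- Locality: what happens at `x` up to time `t` depends on the box of radius `R t`. -/
lemma iter_local {R : ℕ} (hR : Range U R) (A : Set (Site d)) (t : ℕ) (x : Site d)
    (hx : x ∈ iter U A t) : x ∈ iter U (A ∩ bx (R * t) x) t := by
  induction t generalizing x with
  | zero => exact ⟨hx, fun i => by simp⟩
  | succ t ih =>
    have hsub : ∀ y : Site d, (∀ i, |y i| ≤ (R : ℤ)) →
        A ∩ bx (R * t) (x + y) ⊆ A ∩ bx (R * (t + 1)) x := by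
      intro y hy z hz
      refine ⟨hz.1, fun i => ?_⟩
      have h1 := hz.2 i
      have h2 := hy i
      simp only [Pi.add_apply] at h1
      push_cast at h1 ⊢
      rw [abs_le] at *
      constructor <;> nlinarith
    rcases hx with hx | ⟨X, hX, hx⟩
    · refine Or.inl (iter_mono ?_ t (ih x hx))
      simpa using hsub 0 (fun i => by simp)
    · refine Or.inr ⟨X, hX, fun y hy => ?_⟩
      exact iter_mono (hsub y (hR X hX y hy)) t (ih _ (hx y hy))

/-- A stable set: healthy sites of `F` can never get infected by sites outside `F`. -/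
def Stable (U : Finset (Finset (Site d))) (F : Set (Site d)) : Prop :=
  ∀ x ∈ F, ∀ X ∈ U, ∃ y ∈ X, x + y ∈ F

lemma Stable.disjoint_cl {F A : Set (Site d)} (hF : Stable U F) (h : Disjoint A F) :
    Disjoint (cl U A) F := by
  rw [Set.disjoint_left] at h ⊢
  have h1 : cl U A ⊆ Fᶜ := by
    apply cl_subset (fun x hx => h hx)
    rintro x ⟨X, hX, hx⟩ hxF
    obtain ⟨y, hy, hy2⟩ := hF x hxF X hX
    exact hx y hy hy2
  exact fun x hx => h1 hx

/-! ### Translations -/

lemma iter_translate (A : Set (Site d)) (v : Site d) (t : ℕ) (x : Site d) :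
    x ∈ iter U {y | y + v ∈ A} t ↔ x + v ∈ iter U A t := by
  induction t generalizing x with
  | zero => rfl
  | succ t ih =>
    constructor
    · rintro (h | ⟨X, hX, h⟩)
      · exact Or.inl ((ih x).1 h)
      · refine Or.inr ⟨X, hX, fun y hy => ?_⟩
        have := (ih _).1 (h y hy)
        rwa [show x + v + y = x + y + v by abel]
    · rintro (h | ⟨X, hX, h⟩)
      · exact Or.inl ((ih x).2 h)
      · refine Or.inr ⟨X, hX, fun y hy => ?_⟩
        refine (ih _).2 ?_
        have := h y hy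
        rwa [show x + y + v = x + v + y by abel]

lemma cl_translate (A : Set (Site d)) (v : Site d) (x : Site d) :
    x ∈ cl U {y | y + v ∈ A} ↔ x + v ∈ cl U A := by
  simp only [mem_cl, iter_translate]

end Pool.Agent.H37Z.UB
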