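import Pool.Agent.H37Z.UB.Basic

set_option autoImplicit false

/-!
# `U`-bootstrap percolation on `ℤ ^ d`: product measures
-/

open MeasureTheory ProbabilityTheory

namespace Pool.Agent.H37Z.UB

variable {d : ℕ} {U : Finset (Finset (Site d))}

/-- Configurations. -/
abbrev Om (d : ℕ) := Site d → Bool

/-- The Bernoulli measure with parameter `p` on `{true, false}`. -/
noncomputable def coin (p : unitInterval) : Measure Bool :=
  ENNReal.ofReal (p : ℝ) • Measure.dirac true + ENNReal.ofReal (1 - (p : ℝ)) • Measure.dirac false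

instance (p : unitInterval) : IsProbabilityMeasure (coin p) := by
  constructor
  have h1 := p.2.1
  have h2 := p.2.2
  simp only [coin, Measure.coe_add, Measure.coe_smul, Pi.add_apply, Pi.smul_apply,
    measure_univ, smul_eq_mul, mul_one]
  rw [← ENNReal.ofReal_add h1 (by linarith)]
  simp

/-- The law `P_p` of the configuration: all sites are independent. -/
noncomputable def P (p : unitInterval) : Measure (Om d) := Measure.infinitePi fun _ => coin p

instance (p : unitInterval) : IsProbabilityMeasure (P (d := d) p) := by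
  unfold P; infer_instance

/-- The random set of sites which are infected at time `0`. -/
def seed (ω : Om d) : Set (Site d) := {x | ω x = true}

lemma coin_true (p : unitInterval) : coin p {true} = ENNReal.ofReal (p : ℝ) := by
  simp [coin]

lemma coin_false (p : unitInterval) : coin p {false} = ENNReal.ofReal (1 - (p : ℝ)) := by
  simp [coin]

/-- The event `E` depends only on the sites of `S`. -/
def Dep (S : Finset (Site d)) (E : Set (Om d)) : Prop :=
  ∀ ω ω' : Om d, (∀ x ∈ S, ω x = ω' x) → ω ∈ E → ω' ∈ E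

lemma Dep.eq {S : Finset (Site d)} {E : Set (Om d)} (h : Dep S E) :
    E = S.restrict ⁻¹' (S.restrict '' E) := by
  apply Set.Subset.antisymm (Set.subset_preimage_image _ _)
  rintro ω ⟨ω', hω', h2⟩
  refine h ω' ω (fun x hx => ?_) hω'
  have := congrFun h2 ⟨x, hx⟩
  simpa using this

lemma meas_any {S : Finset (Site d)} (B : Set (S → Bool)) : MeasurableSet B :=
  (Set.toFinite B).measurableSet

lemma Dep.measurable {S : Finset (Site d)} {E : Set (Om d)} (h : Dep S E) : MeasurableSet E := by
  rw [h.eq]
  exact (Finset.measurable_restrict S) (meas_any _)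

lemma Dep.mono {S T : Finset (Site d)} {E : Set (Om d)} (h : Dep S E) (hST : S ⊆ T) :
    Dep T E := fun ω ω' h1 => h ω ω' fun x hx => h1 x (hST hx)

lemma Dep.inter {S T : Finset (Site d)} {E F : Set (Om d)} (h : Dep S E) (h' : Dep T F) :
    Dep (S ∪ T) (E ∩ F) := fun ω ω' h1 h2 =>
  ⟨h ω ω' (fun x hx => h1 x (Finset.mem_union_left _ hx)) h2.1,
    h' ω ω' (fun x hx => h1 x (Finset.mem_union_right _ hx)) h2.2⟩

lemma Dep.iUnion {ι : Type*} (J : Finset ι) {S : Finset (Site d)} {E : ι → Set (Om d)}
    (h : ∀ j ∈ J, Dep S (E j)) : Dep S (⋃ j ∈ J, E j) := by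
  intro ω ω' h1 h2
  simp only [Set.mem_iUnion] at h2 ⊢
  obtain ⟨j, hj, h2⟩ := h2
  exact ⟨j, hj, h j hj ω ω' h1 h2⟩

lemma Dep.prob {S : Finset (Site d)} {E : Set (Om d)} (h : Dep S E) (p : unitInterval) :
    P p E = Measure.pi (fun _ : S => coin p) (S.restrict '' E) := by
  conv_lhs => rw [h.eq]
  rw [← Measure.map_apply (Finset.measurable_restrict S) (meas_any _), P,
    Measure.infinitePi_map_restrict]

lemma Dep.indep {S T : Finset (Site d)} {E F : Set (Om d)} (h : Dep S E) (h' : Dep T F)
    (hST : Disjoint S T) (p : unitInterval) : P p (E ∩ F) = P p E * P p F := by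
  have h1 : iIndepFun (fun (i : Site d) (ω : Om d) => ω i) (P p) :=
    iIndepFun_infinitePi (X := fun _ => id) (fun _ => measurable_id)
  have h2 := h1.indepFun_finset S T hST (fun i => measurable_pi_apply i)
  have h3 := h2.measure_inter_preimage_eq_mul (S.restrict '' E) (T.restrict '' F)
    (meas_any _) (meas_any _)
  have e1 : (fun (a : Om d) (i : S) => a i) ⁻¹' (S.restrict '' E) = E := h.eq.symm
  have e2 : (fun (a : Om d) (i : T) => a i) ⁻¹' (T.restrict '' F) = F := h'.eq.symm
  rwa [e1, e2] at h3

lemma prob_iInter {ι : Type*} [DecidableEq ι] (J : Finset ι) (S : ι → Finset (Site d))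
    (E : ι → Set (Om d)) (h : ∀ j ∈ J, Dep (S j) (E j))
    (hS : ∀ j ∈ J, ∀ k ∈ J, j ≠ k → Disjoint (S j) (S k)) (p : unitInterval) :
    P p (⋂ j ∈ J, E j) = ∏ j ∈ J, P p (E j) := by
  have key : Dep (J.biUnion S) (⋂ j ∈ J, E j) ∧ P p (⋂ j ∈ J, E j) = ∏ j ∈ J, P p (E j) := by
    induction J using Finset.induction_on with
    | empty =>
      refine ⟨fun ω ω' _ _ => by simp, by simp⟩
    | @insert a J ha ih =>
      obtain ⟨ih1, ih2⟩ := ih (fun j hj => h j (Finset.mem_insert_of_mem hj))
        (fun j hj k hk => hS j (Finset.mem_insert_of_mem hj) k (Finset.mem_insert_of_mem hk))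
      have ha' := h a (Finset.mem_insert_self a J)
      rw [Finset.set_biInter_insert, Finset.biUnion_insert, Finset.prod_insert ha, ← ih2]
      refine ⟨ha'.inter ih1, ha'.indep ih1 ?_ p⟩
      rw [Finset.disjoint_biUnion_right]
      intro k hk
      exact hS a (Finset.mem_insert_self a J) k (Finset.mem_insert_of_mem hk)
        (fun h => ha (h ▸ hk))
  exact key.2

lemma Dep.continuous {S : Finset (Site d)} {E : Set (Om d)} (h : Dep S E) :
    Continuous fun p : unitInterval => (P p E).toReal := by
  classical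
  have h1 : ∀ p : unitInterval, (P p E).toReal =
      ∑ b ∈ (Set.toFinite (S.restrict '' E)).toFinset,
        ∏ i : S, if b i = true then (p : ℝ) else 1 - (p : ℝ) := by
    intro p
    rw [h.prob p]
    have h2 : (S.restrict '' E) = ((Set.toFinite (S.restrict '' E)).toFinset : Set (S → Bool)) := by
      simp
    conv_lhs => rw [h2]
    rw [← sum_measure_singleton, ENNReal.toReal_sum (fun b _ => measure_ne_top _ _)]
    refine Finset.sum_congr rfl fun b _ => ?_
    rw [Measure.pi_singleton, ENNReal.toReal_prod]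
    refine Finset.prod_congr rfl fun i _ => ?_
    have hp1 := p.2.1
    have hp2 := p.2.2
    by_cases hb : b i = true
    · rw [hb, coin_true, if_pos rfl, ENNReal.toReal_ofReal hp1]
    · rw [Bool.eq_false_iff.2 hb, coin_false, if_neg (by simp), ENNReal.toReal_ofReal (by linarith)]
  simp_rw [h1]
  refine continuous_finsetSum _ fun b _ => continuous_finsetProd _ fun i _ => ?_
  split_ifs
  · exact continuous_subtype_val
  · exact continuous_const.sub continuous_subtype_val

lemma P_translate (p : unitInterval) (v : Site d) :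
    (P p).map (fun (ω : Om d) x => ω (x + v)) = P p := by
  have h := Measure.map_infinitePi_infinitePi_of_inj (P := fun _ : Site d => coin p)
    (f := fun x : Site d => x + v) (add_left_injective v)
  exact h

lemma P_zero : P (d := d) 0 = Measure.dirac fun _ => false := by
  have : coin 0 = Measure.dirac false := by simp [coin]
  unfold P
  rw [this]
  exact Measure.infinitePi_dirac _

lemma P_one : P (d := d) 1 = Measure.dirac fun _ => true := by
  have : coin 1 = Measure.dirac true := by simp [coin]
  unfold P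
  rw [this]
  exact Measure.infinitePi_dirac _

/-- The probability that a finite set contains no infected site. -/
lemma P_healthy (p : unitInterval) (F : Finset (Site d)) :
    P p {ω : Om d | ∀ x ∈ F, ω x = false} = ENNReal.ofReal (1 - (p : ℝ)) ^ F.card := by
  have h1 : {ω : Om d | ∀ x ∈ F, ω x = false} = Set.pi (F : Set (Site d)) fun _ => {false} := by
    ext ω
    simp [Set.mem_pi]
  rw [h1, P, Measure.infinitePi_pi _ (fun i _ => measurableSet_singleton _)]
  simp [coin_false]

/-! ### Events -/

lemma meas_iter {Ω : Type*} [MeasurableSpace Ω] {𝒜 : Ω → Set (Site d)}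
    (h : ∀ x, MeasurableSet {ω | x ∈ 𝒜 ω}) (t : ℕ) (x : Site d) :
    MeasurableSet {ω | x ∈ iter U (𝒜 ω) t} := by
  induction t generalizing x with
  | zero => exact h x
  | succ t ih =>
    have h1 : {ω | x ∈ iter U (𝒜 ω) (t + 1)} = {ω | x ∈ iter U (𝒜 ω) t} ∪
        ⋃ X ∈ U, ⋂ y ∈ X, {ω | x + y ∈ iter U (𝒜 ω) t} := by
      ext ω
      simp [iter, step]
    rw [h1]
    exact (ih x).union (Finset.measurableSet_biUnion _ fun X _ =>
      Finset.measurableSet_biInter _ fun y _ => ih _)

lemma meas_cl {Ω : Type*} [MeasurableSpace Ω] {𝒜 : Ω → Set (Site d)}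
    (h : ∀ x, MeasurableSet {ω | x ∈ 𝒜 ω}) (x : Site d) :
    MeasurableSet {ω | x ∈ cl U (𝒜 ω)} := by
  have h1 : {ω | x ∈ cl U (𝒜 ω)} = ⋃ t, {ω | x ∈ iter U (𝒜 ω) t} := by
    ext ω
    simp [mem_cl]
  rw [h1]
  exact MeasurableSet.iUnion fun t => meas_iter h t x

lemma meas_seed (x : Site d) : MeasurableSet {ω : Om d | x ∈ seed ω} := by
  have : {ω : Om d | x ∈ seed ω} = (fun ω => ω x) ⁻¹' {true} := by
    ext ω; simp [seed]
  rw [this]
  exact (measurable_pi_apply x) (measurableSet_singleton _)

lemma meas_seed_inter (B : Set (Site d)) (x : Site d) :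
    MeasurableSet {ω : Om d | x ∈ seed ω ∩ B} := by
  by_cases hx : x ∈ B
  · have : {ω : Om d | x ∈ seed ω ∩ B} = {ω : Om d | x ∈ seed ω} := by
      ext ω; simp [hx]
    rw [this]; exact meas_seed x
  · have : {ω : Om d | x ∈ seed ω ∩ B} = ∅ := by
      ext ω; simp [hx]
    rw [this]; exact MeasurableSet.empty

/-- The box as a finite set. -/
noncomputable def bxF (n : ℕ) (x : Site d) : Finset (Site d) :=
  Fintype.piFinset fun i => Finset.Icc (x i - n) (x i + n)

lemma mem_bxF {n : ℕ} {x y : Site d} : y ∈ bxF n x ↔ y ∈ bx n x := by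
  simp only [bxF, Fintype.mem_piFinset, Finset.mem_Icc, mem_bx, abs_le]
  refine forall_congr' fun i => ⟨fun h => ⟨by linarith, by linarith⟩,
    fun h => ⟨by linarith, by linarith⟩⟩

/-- The event that `x` is not infected from inside its box of radius `n`. -/
def arm (U : Finset (Finset (Site d))) (n : ℕ) (x : Site d) : Set (Om d) :=
  {ω | x ∉ cl U (seed ω ∩ bx n x)}

lemma arm_dep (n : ℕ) (x : Site d) : Dep (bxF n x) (arm U n x) := by
  intro ω ω' h h1
  have h2 : seed ω ∩ bx n x = seed ω' ∩ bx n x := by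
    ext y
    simp only [seed, Set.mem_inter_iff, Set.mem_ofPred_eq]
    constructor
    · rintro ⟨ha, hb⟩
      exact ⟨by rw [← h y (mem_bxF.2 hb)]; exact ha, hb⟩
    · rintro ⟨ha, hb⟩
      exact ⟨by rw [h y (mem_bxF.2 hb)]; exact ha, hb⟩
  change x ∉ cl U (seed ω' ∩ bx n x)
  rw [← h2]
  exact h1

lemma arm_translate (p : unitInterval) (n : ℕ) (x : Site d) :
    P p (arm U n x) = P p (arm U n 0) := by
  have h1 : (fun (ω : Om d) y => ω (y + x)) ⁻¹' (arm U n 0) = arm U n x := by
    ext ω
    have h2 : seed (fun y => ω (y + x)) ∩ bx n 0 = {y | y + x ∈ seed ω ∩ bx n x} := by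
      ext y
      simp [seed, bx]
    change (0 : Site d) ∉ cl U (seed (fun y => ω (y + x)) ∩ bx n 0) ↔ x ∉ cl U (seed ω ∩ bx n x)
    rw [h2, cl_translate, zero_add]
  rw [← h1, ← Measure.map_apply (by fun_prop) (arm_dep n 0).measurable, P_translate]

lemma arm_anti (x : Site d) {m n : ℕ} (h : m ≤ n) : arm U n x ⊆ arm U m x := by
  intro ω hω hω2
  refine hω (cl_mono ?_ hω2)
  refine Set.inter_subset_inter_right _ fun y hy i => (hy i).trans (by exact_mod_cast h)

end Pool.Agent.H37Z.UB
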