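import Pool.Agent.H37Z.UB.Path
import Pool.Agent.H37Z.UB.Prob

set_option autoImplicit false

/-!
# `U`-bootstrap percolation on `ℤ ^ d`: a finite-size criterion
-/

open MeasureTheory ProbabilityTheory Filter Topology

namespace Pool.Agent.H37Z.UB

variable {d : ℕ} {U : Finset (Finset (Site d))}

/-- The block `z` is bad. -/
def badEv (U : Finset (Finset (Site d))) (n R : ℕ) (z : Site d) : Set (Om d) :=
  {ω | Bad U n R (seed ω) z}

lemma badEv_eq (n R : ℕ) (z : Site d) : badEv U n R z = ⋃ x ∈ frame n R z, arm U n x := by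
  ext ω
  simp [badEv, Bad, arm]

lemma card_frame (n R : ℕ) (z : Site d) : (frame n R z).card = (n + 2 * R) ^ d - n ^ d := by
  rw [frame, Finset.card_sdiff_of_subset]
  · simp only [Fintype.card_piFinset, Int.card_Ico]
    have h1 : ∀ i : Fin d, ((n : ℤ) * z i + n + R - ((n : ℤ) * z i - R)).toNat = n + 2 * R := by
      intro i
      have : (n : ℤ) * z i + n + R - ((n : ℤ) * z i - R) = ((n + 2 * R : ℕ) : ℤ) := by
        push_cast; ring
      rw [this, Int.toNat_natCast]
    have h2 : ∀ i : Fin d, ((n : ℤ) * z i + n - ((n : ℤ) * z i)).toNat = n := by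
      intro i
      have : (n : ℤ) * z i + n - ((n : ℤ) * z i) = (n : ℤ) := by ring
      rw [this, Int.toNat_natCast]
    simp [h1]
  · intro x hx
    simp only [Fintype.mem_piFinset, Finset.mem_Ico] at hx ⊢
    intro i
    have := hx i
    constructor <;> linarith

/-- The sites on which the event that `z` is bad depends. -/
noncomputable def supp (n : ℕ) (z : Site d) : Finset (Site d) :=
  Fintype.piFinset fun i => Finset.Ico ((n : ℤ) * z i - 2 * n) ((n : ℤ) * z i + 3 * n)

lemma badEv_dep {n R : ℕ} (hn : 1 ≤ n) (hRn : R ≤ n) (z : Site d) :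
    Dep (supp n z) (badEv U n R z) := by
  rw [badEv_eq]
  refine Dep.iUnion _ fun x hx => (arm_dep n x).mono fun y hy => ?_
  rw [mem_bxF, mem_bx] at hy
  rw [mem_frame hn] at hx
  simp only [supp, Fintype.mem_piFinset, Finset.mem_Ico]
  intro i
  have h1 := abs_le.1 (hy i)
  have h2 := hx.1 i
  have h3 : (R : ℤ) ≤ n := by exact_mod_cast hRn
  constructor <;> linarith

lemma supp_disjoint {n : ℕ} {z w : Site d} (hne : z ≠ w)
    (hmod : ∀ i, (5 : ℤ) ∣ z i - w i) : Disjoint (supp n z) (supp n w) := by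
  rw [Finset.disjoint_left]
  intro x hx hx'
  obtain ⟨i, hi⟩ := Function.ne_iff.1 hne
  simp only [supp, Fintype.mem_piFinset, Finset.mem_Ico] at hx hx'
  have h1 := hx i
  have h2 := hx' i
  obtain ⟨k, hk⟩ := hmod i
  have hn0 : (0 : ℤ) ≤ n := by positivity
  rcases lt_trichotomy k 0 with h | h | h
  · have : z i + 5 ≤ w i := by omega
    nlinarith
  · apply hi
    omega
  · have : w i + 5 ≤ z i := by omega
    nlinarith

lemma prob_badEv_le (p : unitInterval) (n R : ℕ) (z : Site d) :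
    P p (badEv U n R z) ≤ (((n + 2 * R) ^ d - n ^ d : ℕ) : ENNReal) * P p (arm U n 0) := by
  rw [badEv_eq]
  refine (measure_biUnion_finset_le _ _).trans ?_
  rw [Finset.sum_congr rfl fun x _ => arm_translate p n x, Finset.sum_const, nsmul_eq_mul,
    card_frame]

/-- The vertices of the path with the steps `σ`. -/
def vert {m : ℕ} (z0 : Site d) (σ : Fin m → Fin d → Fin 3) : ℕ → Site d
  | 0 => z0
  | j + 1 => fun i => vert z0 σ j i + if h : j < m then (((σ ⟨j, h⟩ i : Fin 3) : ℕ) : ℤ) - 1 else 0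

lemma exists_vert {m : ℕ} (γ : ℕ → Site d) (h : ∀ j < m, ∀ i, |γ (j + 1) i - γ j i| ≤ 1) :
    ∃ σ : Fin m → Fin d → Fin 3, ∀ j ≤ m, vert (γ 0) σ j = γ j := by
  have h1 : ∀ (j : Fin m) (i : Fin d), ∃ a : Fin 3,
      γ (j + 1) i - γ j i = (((a : Fin 3) : ℕ) : ℤ) - 1 := by
    intro j i
    have h2 := abs_le.1 (h j j.2 i)
    generalize γ (j + 1) i - γ j i = t at *
    obtain rfl | rfl | rfl : t = -1 ∨ t = 0 ∨ t = 1 := by omega
    · exact ⟨0, by simp⟩
    · exact ⟨1, by simp⟩
    · exact ⟨2, by simp⟩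
  choose σ hσ using h1
  refine ⟨σ, fun j => ?_⟩
  induction j with
  | zero => intro _; rfl
  | succ j ih =>
    intro hj
    have hj' : j < m := hj
    funext i
    have h3 := hσ ⟨j, hj'⟩ i
    simp only [vert, dif_pos hj', ih hj'.le]
    simp only at h3
    linarith

/-- The key estimate for one self-avoiding path. -/
lemma prob_path_le {n R : ℕ} (hn : 1 ≤ n) (hRn : R ≤ n) (p : unitInterval) {K m : ℕ}
    (hK : 5 ^ d * K ≤ m + 1) (v : ℕ → Site d) (hv : Set.InjOn v {j | j ≤ m})
    (hε : (((n + 2 * R) ^ d - n ^ d : ℕ) : ENNReal) * P p (arm U n 0) ≤ 1) :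
    P p (⋂ j ∈ Finset.range (m + 1), badEv U n R (v j)) ≤
      ((((n + 2 * R) ^ d - n ^ d : ℕ) : ENNReal) * P p (arm U n 0)) ^ K := by
  classical
  set ε := (((n + 2 * R) ^ d - n ^ d : ℕ) : ENNReal) * P p (arm U n 0) with hεdef
  obtain ⟨c, _, hc⟩ := Finset.exists_le_card_fiber_of_mul_le_card_of_maps_to
    (s := Finset.range (m + 1)) (t := (Finset.univ : Finset (Fin d → ZMod 5)))
    (f := fun j i => ((v j i : ℤ) : ZMod 5)) (n := K) (fun _ _ => Finset.mem_univ _)
    Finset.univ_nonempty (by simpa [ZMod.card] using hK)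
  set J := (Finset.range (m + 1)).filter fun j => (fun i => ((v j i : ℤ) : ZMod 5)) = c with hJ
  have h1 : (⋂ j ∈ Finset.range (m + 1), badEv U n R (v j)) ⊆ ⋂ j ∈ J, badEv U n R (v j) := by
    intro ω hω
    simp only [Set.mem_iInter] at hω ⊢
    exact fun j hj => hω j (Finset.filter_subset _ _ hj)
  refine (measure_mono h1).trans ?_
  rw [prob_iInter J (fun j => supp n (v j)) (fun j => badEv U n R (v j))
    (fun j _ => badEv_dep hn hRn _)]
  · calc ∏ j ∈ J, P p (badEv U n R (v j)) ≤ ∏ _j ∈ J, ε :=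
          Finset.prod_le_prod' fun j _ => prob_badEv_le p n R _
      _ = ε ^ J.card := by rw [Finset.prod_const]
      _ ≤ ε ^ K := pow_le_pow_right_of_le_one' hε hc
  · intro j hj k hk hjk
    simp only [hJ, Finset.mem_filter, Finset.mem_range] at hj hk
    refine supp_disjoint (fun h => hjk (hv ?_ ?_ h)) fun i => ?_
    · simp only [Set.mem_ofPred_eq]; omega
    · simp only [Set.mem_ofPred_eq]; omega
    · have h2 : ((v j i : ℤ) : ZMod 5) = ((v k i : ℤ) : ZMod 5) := by
        rw [congrFun hj.2 i, congrFun hk.2 i]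
      have h3 := (ZMod.intCast_eq_intCast_iff_dvd_sub _ _ _).1 h2
      have h4 : v j i - v k i = -(v k i - v j i) := by ring
      rw [h4]
      exact (dvd_neg.2 (by exact_mod_cast h3))

/-- **The finite-size criterion.** -/
theorem arm_le {n R : ℕ} (hR : Range U R) (hn : 1 ≤ n) (hRn : R ≤ n)
    (hNF : ∀ F : Set (Site d), F.Finite → F.Nonempty → ¬ Stable U F) (p : unitInterval)
    (hε1 : (((n + 2 * R) ^ d - n ^ d : ℕ) : ENNReal) * P p (arm U n 0) ≤ 1)
    (K N : ℕ) (hN : n * (5 ^ d * K + 3) ≤ N) (x0 : Site d) :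
    P p (arm U N x0) ≤ ((((3 ^ d) ^ 5 ^ d : ℕ) : ENNReal) *
      ((((n + 2 * R) ^ d - n ^ d : ℕ) : ENNReal) * P p (arm U n 0))) ^ K := by
  classical
  set ε := (((n + 2 * R) ^ d - n ^ d : ℕ) : ENNReal) * P p (arm U n 0) with hεdef
  obtain ⟨m, hm1, hm2⟩ : ∃ m : ℕ, m ≤ 5 ^ d * K ∧ 5 ^ d * K ≤ m + 1 :=
    ⟨5 ^ d * K - 1, by omega, by omega⟩
  have hN' : n * (m + 3) ≤ N := (Nat.mul_le_mul_left n (by omega)).trans hN
  set SA : Finset (Fin m → Fin d → Fin 3) :=
    Finset.univ.filter fun σ => Set.InjOn (vert (cell n x0) σ) {j | j ≤ m} with hSA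
  have hsub : arm U N x0 ⊆
      ⋃ σ ∈ SA, ⋂ j ∈ Finset.range (m + 1), badEv U n R (vert (cell n x0) σ j) := by
    intro ω hω
    obtain ⟨γ, h0, h1, h2, h3⟩ := exists_path hR hn hRn hN' hNF (seed ω) x0 hω
    obtain ⟨σ, hσ⟩ := exists_vert γ h1
    rw [h0] at hσ
    simp only [Set.mem_iUnion, Set.mem_iInter]
    refine ⟨σ, ?_, fun j hj => ?_⟩
    · rw [hSA, Finset.mem_filter]
      refine ⟨Finset.mem_univ _, ?_⟩
      intro a ha b hb hab
      rw [hσ a ha, hσ b hb] at hab
      exact h2 ha hb hab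
    · rw [Finset.mem_range] at hj
      rw [hσ j (by omega)]
      exact h3 j (by omega)
  calc P p (arm U N x0)
      ≤ P p (⋃ σ ∈ SA, ⋂ j ∈ Finset.range (m + 1), badEv U n R (vert (cell n x0) σ j)) :=
        measure_mono hsub
    _ ≤ ∑ σ ∈ SA, P p (⋂ j ∈ Finset.range (m + 1), badEv U n R (vert (cell n x0) σ j)) :=
        measure_biUnion_finset_le _ _
    _ ≤ ∑ _σ ∈ SA, ε ^ K := by
        refine Finset.sum_le_sum fun σ hσ => ?_
        rw [hSA, Finset.mem_filter] at hσ
        exact prob_path_le hn hRn p hm2 _ hσ.2 hε1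
    _ = (SA.card : ENNReal) * ε ^ K := by rw [Finset.sum_const, nsmul_eq_mul]
    _ ≤ (((3 ^ d) ^ 5 ^ d : ℕ) : ENNReal) ^ K * ε ^ K := by
        gcongr
        have h4 : SA.card ≤ ((3 ^ d) ^ 5 ^ d) ^ K := by
          calc SA.card ≤ Fintype.card (Fin m → Fin d → Fin 3) := Finset.card_le_univ _
            _ = (3 ^ d) ^ m := by simp
            _ ≤ (3 ^ d) ^ (5 ^ d * K) := Nat.pow_le_pow_right (by positivity) hm1
            _ = _ := by rw [pow_mul]
        exact_mod_cast h4
    _ = _ := (mul_pow _ _ _).symm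

/-- The event that everything gets infected. -/
def full (U : Finset (Finset (Site d))) : Set (Om d) := {ω | cl U (seed ω) = Set.univ}

lemma meas_full : MeasurableSet (full U) := by
  have : full U = ⋂ x, {ω : Om d | x ∈ cl U (seed ω)} := by
    ext ω
    simp [full, Set.eq_univ_iff_forall]
  rw [this]
  exact MeasurableSet.iInter fun x => meas_cl meas_seed x

/-- If the probabilities `P_p(arm N)` take arbitrarily small values, everything gets infected. -/
lemma full_of_small (p : unitInterval)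
    (h : ∀ δ : ENNReal, 0 < δ → ∃ N, P p (arm U N 0) ≤ δ) : P p (full U) = 1 := by
  have hzero : ∀ x0 : Site d, P p {ω : Om d | x0 ∉ cl U (seed ω)} = 0 := by
    intro x0
    by_contra h0
    obtain ⟨N, hN⟩ := h _ (ENNReal.half_pos h0)
    have h1 : P p {ω : Om d | x0 ∉ cl U (seed ω)} ≤ P p (arm U N 0) := by
      rw [← arm_translate p N x0]
      exact measure_mono fun ω hω h2 => hω (cl_mono Set.inter_subset_left h2)
    exact absurd (h1.trans hN) (not_le.2 (ENNReal.half_lt_self h0 (measure_ne_top _ _)))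
  rw [← prob_compl_eq_zero_iff meas_full]
  refine measure_mono_null ?_ (measure_iUnion_null hzero)
  intro ω hω
  simp only [full, Set.mem_compl_iff, Set.mem_ofPred_eq, Set.eq_univ_iff_forall,
    not_forall] at hω
  obtain ⟨x, hx⟩ := hω
  exact Set.mem_iUnion.2 ⟨x, hx⟩

end Pool.Agent.H37Z.UB
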