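import Pool.Agent.H37Z.UB.Basic

set_option autoImplicit false

/-!
# `U`-bootstrap percolation on `ℤ ^ d`: paths of bad blocks
-/

namespace Pool.Agent.H37Z.UB

variable {d : ℕ} {U : Finset (Finset (Site d))}

/-- The index of the block of side `n` which contains `x`. -/
def cell (n : ℕ) (x : Site d) : Site d := fun i => x i / (n : ℤ)

/-- The frame of width `R` around the block `z` of side `n`. -/
noncomputable def frame (n R : ℕ) (z : Site d) : Finset (Site d) :=
  (Fintype.piFinset fun i => Finset.Ico ((n : ℤ) * z i - R) ((n : ℤ) * z i + n + R)) \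
    (Fintype.piFinset fun i => Finset.Ico ((n : ℤ) * z i) ((n : ℤ) * z i + n))

/-- The block `z` is bad: some site of its frame is not infected from inside its own box. -/
def Bad (U : Finset (Finset (Site d))) (n R : ℕ) (A : Set (Site d)) (z : Site d) : Prop :=
  ∃ x ∈ frame n R z, x ∉ cl U (A ∩ bx n x)

lemma div_eq_iff' {n : ℕ} (hn : 1 ≤ n) (a z : ℤ) :
    a / (n : ℤ) = z ↔ (n : ℤ) * z ≤ a ∧ a < (n : ℤ) * z + n := by
  have hn' : (0 : ℤ) < n := by exact_mod_cast hn
  have h1 := Int.emod_add_mul_ediv a n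
  have h2 := Int.emod_nonneg a hn'.ne'
  have h3 := Int.emod_lt_of_pos a hn'
  constructor
  · rintro rfl
    constructor <;> linarith
  · rintro ⟨h4, h5⟩
    by_contra hne
    rcases lt_or_gt_of_ne hne with h | h
    · nlinarith
    · nlinarith

lemma cell_eq_iff {n : ℕ} (hn : 1 ≤ n) (x z : Site d) :
    cell n x = z ↔ ∀ i, (n : ℤ) * z i ≤ x i ∧ x i < (n : ℤ) * z i + n := by
  rw [funext_iff]
  exact forall_congr' fun i => div_eq_iff' hn _ _

lemma mem_frame {n R : ℕ} (hn : 1 ≤ n) {x z : Site d} :
    x ∈ frame n R z ↔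
      (∀ i, (n : ℤ) * z i - R ≤ x i ∧ x i < (n : ℤ) * z i + n + R) ∧ cell n x ≠ z := by
  rw [Ne, cell_eq_iff hn]
  simp [frame, Fintype.mem_piFinset]

lemma cell_step {n R : ℕ} (hn : 1 ≤ n) (hRn : R ≤ n) {x y : Site d}
    (h : ∀ i, |y i - x i| ≤ (R : ℤ)) (i : Fin d) : |cell n y i - cell n x i| ≤ 1 := by
  have h1 := (div_eq_iff' hn (x i) _).1 rfl
  have h2 := (div_eq_iff' hn (y i) _).1 rfl
  have h3 := h i
  have hR : (R : ℤ) ≤ n := by exact_mod_cast hRn
  have hn' : (0 : ℤ) < n := by exact_mod_cast hn
  change |y i / (n : ℤ) - x i / (n : ℤ)| ≤ 1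
  generalize x i / (n : ℤ) = a at *
  generalize y i / (n : ℤ) = b at *
  rw [abs_le] at *
  constructor
  · by_contra hcon
    push Not at hcon
    have : b ≤ a - 2 := by omega
    nlinarith
  · by_contra hcon
    push Not at hcon
    have : a + 2 ≤ b := by omega
    nlinarith

/-- The graph of neighbouring bad blocks. -/
def badGraph (U : Finset (Finset (Site d))) (n R : ℕ) (A : Set (Site d)) :
    SimpleGraph (Site d) where
  Adj a b := a ≠ b ∧ (Bad U n R A a ∧ Bad U n R A b) ∧ ∀ i, |b i - a i| ≤ 1
  symm := ⟨by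
    rintro a b ⟨h1, h2, h3⟩
    exact ⟨h1.symm, h2.symm, fun i => by rw [abs_sub_comm]; exact h3 i⟩⟩
  loopless := ⟨fun a h => h.1 rfl⟩

lemma walk_length {n R : ℕ} {A : Set (Site d)} {a b : Site d} (p : (badGraph U n R A).Walk a b)
    (i : Fin d) : |b i - a i| ≤ (p.length : ℤ) := by
  induction p with
  | nil => simp
  | @cons u v w h p ih =>
    have h1 := h.2.2 i
    rw [SimpleGraph.Walk.length_cons]
    push_cast
    calc |w i - u i| ≤ |w i - v i| + |v i - u i| := abs_sub_le _ _ _
      _ ≤ _ := by linarith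

/-- If a site is not infected from inside its box of radius `N`, then its block starts a long
self-avoiding path of bad blocks. -/
theorem exists_path {n R N m : ℕ} (hR : Range U R) (hn : 1 ≤ n) (hRn : R ≤ n)
    (hN : n * (m + 3) ≤ N)
    (hNF : ∀ F : Set (Site d), F.Finite → F.Nonempty → ¬ Stable U F)
    (A : Set (Site d)) (x0 : Site d) (hx0 : x0 ∉ cl U (A ∩ bx N x0)) :
    ∃ γ : ℕ → Site d, γ 0 = cell n x0 ∧ (∀ j < m, ∀ i, |γ (j + 1) i - γ j i| ≤ 1) ∧
      Set.InjOn γ {j | j ≤ m} ∧ ∀ j ≤ m, Bad U n R A (γ j) := by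
  classical
  have hRn' : (R : ℤ) ≤ n := by exact_mod_cast hRn
  have hn' : (0 : ℤ) < n := by exact_mod_cast hn
  have hN' : (n : ℤ) * (m + 3) ≤ N := by exact_mod_cast hN
  set r : Site d → Site d → Prop := fun a b =>
    (b ∉ cl U (A ∩ bx N x0) ∧ ∀ i, |b i - x0 i| ≤ (N : ℤ) - n) ∧
      ∀ i, |b i - a i| ≤ (R : ℤ) with hr
  set C : Set (Site d) := {x | Relation.ReflTransGen r x0 x} with hC
  have hC0 : x0 ∈ C := Relation.ReflTransGen.refl
  have hm0 : (0 : ℤ) ≤ m := by positivity
  have hCH : ∀ x ∈ C, x ∉ cl U (A ∩ bx N x0) ∧ ∀ i, |x i - x0 i| ≤ (N : ℤ) - n := by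
    intro x hx
    rcases Relation.ReflTransGen.cases_tail hx with h | ⟨y, _, h⟩
    · rw [h]
      refine ⟨hx0, fun i => ?_⟩
      simp only [sub_self, abs_zero]
      nlinarith
    · exact h.1
  -- a far point of the component
  obtain ⟨xs, hxs, i0, hi0⟩ : ∃ x ∈ C, ∃ i, (N : ℤ) - n - R < |x i - x0 i| := by
    by_contra hcon
    push Not at hcon
    have hCst : Stable U C := by
      intro x hx X hX
      by_contra hcon2
      push Not at hcon2
      refine (hCH x hx).1 (cl_closed hX fun y hy => ?_)
      by_contra hy2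
      refine hcon2 y hy (Relation.ReflTransGen.tail hx ⟨⟨hy2, fun i => ?_⟩, fun i => ?_⟩)
      · have h1 := hcon x hx i
        have h2 := hR X hX y hy i
        simp only [Pi.add_apply]
        rw [abs_le] at *
        constructor <;> linarith
      · simpa using hR X hX y hy i
    have hCfin : C.Finite := by
      refine Set.Finite.subset (Finset.finite_toSet (Fintype.piFinset fun i =>
        Finset.Icc (x0 i - N) (x0 i + N))) ?_
      intro x hx
      simp only [Finset.mem_coe, Fintype.mem_piFinset, Finset.mem_Icc]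
      intro i
      have h1 := abs_le.1 ((hCH x hx).2 i)
      constructor <;> linarith
    exact hNF C hCfin ⟨x0, hC0⟩ hCst
  have hfar : (m : ℤ) < |cell n xs i0 - cell n x0 i0| := by
    have h1 := (div_eq_iff' hn (xs i0) _).1 rfl
    have h2 := (div_eq_iff' hn (x0 i0) _).1 rfl
    change (m : ℤ) < |xs i0 / (n : ℤ) - x0 i0 / (n : ℤ)|
    generalize xs i0 / (n : ℤ) = a at *
    generalize x0 i0 / (n : ℤ) = b at *
    by_contra hcon
    push Not at hcon
    rw [abs_le] at hcon
    have h3 : |xs i0 - x0 i0| ≤ (n : ℤ) * (m + 1) := by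
      rw [abs_le]
      constructor <;> nlinarith
    nlinarith
  have hframe : ∀ x ∈ C, ∃ w ∈ C, w ∈ frame n R (cell n x) := by
    intro x hx
    by_contra hcon
    push Not at hcon
    set z := cell n x with hz
    have key : ∀ w, Relation.ReflTransGen r x0 w → (cell n w = z ↔ cell n x0 = z) := by
      intro w hw
      induction hw with
      | refl => rfl
      | @tail b c hab hbc ih =>
        rw [← ih]
        have hb : b ∈ C := hab
        have hc : c ∈ C := Relation.ReflTransGen.tail hab hbc
        have hbc2 := hbc.2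
        constructor
        · intro h
          by_contra h2
          apply hcon b hb
          rw [mem_frame hn]
          refine ⟨fun i => ?_, h2⟩
          have h3 := (cell_eq_iff hn _ _).1 h i
          have h4 := abs_le.1 (hbc2 i)
          constructor <;> linarith
        · intro h
          by_contra h2
          apply hcon c hc
          rw [mem_frame hn]
          refine ⟨fun i => ?_, h2⟩
          have h3 := (cell_eq_iff hn _ _).1 h i
          have h4 := abs_le.1 (hbc2 i)
          constructor <;> linarith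
    have h0 : cell n x0 = z := (key x hx).1 rfl
    have h1 : cell n xs = z := (key xs hxs).2 h0
    rw [h1, ← h0, sub_self, abs_zero] at hfar
    linarith
  have hbad : ∀ x ∈ C, Bad U n R A (cell n x) := by
    intro x hx
    obtain ⟨w, hw, hw2⟩ := hframe x hx
    refine ⟨w, hw2, fun h => (hCH w hw).1 (cl_mono ?_ h)⟩
    refine Set.inter_subset_inter_right _ fun y hy i => ?_
    have h1 := abs_le.1 ((hCH w hw).2 i)
    have h2 := abs_le.1 (hy i)
    rw [abs_le]
    constructor <;> linarith
  have hreach : ∀ w, Relation.ReflTransGen r x0 w →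
      (badGraph U n R A).Reachable (cell n x0) (cell n w) := by
    intro w hw
    induction hw with
    | refl => exact SimpleGraph.Reachable.refl _
    | @tail b c hab hbc ih =>
      by_cases hbc' : cell n b = cell n c
      · rwa [← hbc']
      · refine ih.trans (SimpleGraph.Adj.reachable ⟨hbc', ⟨hbad b hab, hbad c ?_⟩, ?_⟩)
        · exact Relation.ReflTransGen.tail hab hbc
        · exact cell_step hn hRn hbc.2
  obtain ⟨q⟩ := hreach xs hxs
  obtain ⟨p, hp⟩ := q.toPath
  have hlen : m < p.length := by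
    have := walk_length p i0
    exact_mod_cast hfar.trans_le this
  have hadj : ∀ j ≤ m, (badGraph U n R A).Adj (p.getVert j) (p.getVert (j + 1)) :=
    fun j hj => p.adj_getVert_succ (by omega)
  refine ⟨p.getVert, p.getVert_zero, fun j hj => (hadj j hj.le).2.2, ?_, fun j hj =>
    (hadj j hj).2.1.1⟩
  exact hp.getVert_injOn.mono fun j hj => by
    simp only [Set.mem_ofPred_eq] at hj ⊢
    omega

end Pool.Agent.H37Z.UB
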