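import Pool.Agent.H37Z.UB.Crit

set_option autoImplicit false

/-!
# `U`-bootstrap percolation on `ℤ ^ d`: the critical point
-/

open MeasureTheory ProbabilityTheory Filter Topology

namespace Pool.Agent.H37Z.UB

variable {d : ℕ} {U : Finset (Finset (Site d))}

/-- `θ_n(p) = P_p(0 ∉ [A ∩ [-n, n] ^ d])`. -/
noncomputable def theta (U : Finset (Finset (Site d))) (n : ℕ) (p : unitInterval) : ℝ :=
  (P p {ω : Om d | (0 : Site d) ∉ cl U (seed ω ∩ bx n 0)}).toReal

/-- `θ_n(p)` decays exponentially in `n`. -/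
def ExpDecay (U : Finset (Finset (Site d))) (p : unitInterval) : Prop :=
  ∃ C r : ℝ, 0 < r ∧ r < 1 ∧ ∀ n : ℕ, theta U n p ≤ C * r ^ n

/-- The critical probability. -/
noncomputable def pc (U : Finset (Finset (Site d))) : unitInterval :=
  sInf {p | P p {ω : Om d | cl U (seed ω) = Set.univ} = 1}

lemma theta_eq (n : ℕ) (p : unitInterval) : theta U n p = (P p (arm U n 0)).toReal := rfl

lemma theta_nonneg (n : ℕ) (p : unitInterval) : 0 ≤ theta U n p := ENNReal.toReal_nonneg

lemma theta_le_one (n : ℕ) (p : unitInterval) : theta U n p ≤ 1 := by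
  rw [theta_eq]
  exact ENNReal.toReal_le_of_le_ofReal zero_le_one (by simpa using prob_le_one)

lemma theta_anti (p : unitInterval) {m n : ℕ} (h : m ≤ n) : theta U n p ≤ theta U m p := by
  rw [theta_eq, theta_eq]
  exact ENNReal.toReal_mono (measure_ne_top _ _) (measure_mono (arm_anti 0 h))

lemma ofReal_theta (n : ℕ) (p : unitInterval) :
    P p (arm U n 0) = ENNReal.ofReal (theta U n p) := by
  rw [theta_eq, ENNReal.ofReal_toReal (measure_ne_top _ _)]

lemma continuous_theta (n : ℕ) : Continuous fun p => theta U n p :=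
  (arm_dep n 0).continuous

lemma theta_one (n : ℕ) : theta U n 1 = 0 := by
  rw [theta_eq, P_one, Measure.dirac_apply' _ (arm_dep n 0).measurable]
  have : (fun _ => true : Om d) ∉ arm U n 0 := by
    intro h
    exact h (subset_cl _ ⟨rfl, fun i => by simp⟩)
  simp [this]

lemma theta_zero (hU : ∅ ∉ U) (n : ℕ) : theta U n 0 = 1 := by
  rw [theta_eq, P_zero, Measure.dirac_apply' _ (arm_dep n 0).measurable]
  have : (fun _ => false : Om d) ∈ arm U n 0 := by
    have h1 : seed (fun _ => false : Om d) ∩ bx n 0 = ∅ := by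
      ext x; simp [seed]
    change (0 : Site d) ∉ cl U (seed (fun _ => false : Om d) ∩ bx n 0)
    rw [h1]
    have h2 : cl U (∅ : Set (Site d)) ⊆ ∅ := by
      apply cl_subset (le_refl _)
      rintro x ⟨X, hX, h⟩
      rcases X.eq_empty_or_nonempty with rfl | ⟨y, hy⟩
      · exact absurd hX hU
      · exact h y hy
    exact fun h => h2 h
  simp [this]

lemma pow_sub_pow_le' (a b : ℝ) (hb : 0 ≤ b) (hab : b ≤ a) (k : ℕ) :
    a ^ (k + 1) - b ^ (k + 1) ≤ (k + 1) * (a - b) * a ^ k := by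
  induction k with
  | zero => simp
  | succ k ih =>
    have ha : 0 ≤ a := hb.trans hab
    have h1 : b ^ (k + 1) ≤ a ^ (k + 1) := pow_le_pow_left₀ hb hab _
    have h2 := mul_le_mul_of_nonneg_left ih ha
    have h3 := mul_le_mul_of_nonneg_left h1 (sub_nonneg.2 hab)
    push_cast
    calc a ^ (k + 1 + 1) - b ^ (k + 1 + 1)
        = a * (a ^ (k + 1) - b ^ (k + 1)) + (a - b) * b ^ (k + 1) := by ring
      _ ≤ a * ((k + 1) * (a - b) * a ^ k) + (a - b) * a ^ (k + 1) := by linarith
      _ = (k + 1 + 1) * (a - b) * a ^ (k + 1) := by ring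

/-- Exponential decay along multiples gives exponential decay. -/
lemma decay_aux (f : ℕ → ℝ) (q : ℝ) (L : ℕ) (hL : 1 ≤ L) (hq0 : 0 ≤ q) (hq1 : q < 1)
    (h : ∀ N, f N ≤ q ^ (N / L)) :
    ∃ C r : ℝ, 0 < r ∧ r < 1 ∧ ∀ n : ℕ, f n ≤ C * r ^ n := by
  set q' := max q (1 / 2) with hq'
  have h0 : 0 < q' := lt_of_lt_of_le (by norm_num) (le_max_right _ _)
  have h1 : q' < 1 := max_lt hq1 (by norm_num)
  have hL' : (0 : ℝ) < L := by exact_mod_cast hL
  set r := q' ^ (1 / (L : ℝ)) with hr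
  have hr0 : 0 < r := Real.rpow_pos_of_pos h0 _
  have hr1 : r < 1 := Real.rpow_lt_one h0.le h1 (by positivity)
  have hrL : r ^ L = q' := by
    rw [hr, ← Real.rpow_natCast, ← Real.rpow_mul h0.le, one_div, inv_mul_cancel₀ hL'.ne',
      Real.rpow_one]
  refine ⟨1 / q', r, hr0, hr1, fun N => ?_⟩
  have h2 : r ^ N = q' ^ (N / L) * r ^ (N % L) := by
    conv_lhs => rw [← Nat.div_add_mod N L]
    rw [pow_add, pow_mul, hrL]
  have h3 : q' ≤ r ^ (N % L) := by
    rw [← hrL]
    exact pow_le_pow_of_le_one hr0.le hr1.le (Nat.mod_lt _ hL).le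
  calc f N ≤ q ^ (N / L) := h N
    _ ≤ q' ^ (N / L) := pow_le_pow_left₀ hq0 (le_max_left _ _) _
    _ = 1 / q' * (q' ^ (N / L) * q') := by field_simp
    _ ≤ 1 / q' * (q' ^ (N / L) * r ^ (N % L)) := by gcongr
    _ = 1 / q' * r ^ N := by rw [h2]

/-- The finite-size criterion with real numbers. -/
theorem criterion_real (hd : 1 ≤ d) {R : ℕ} (hR1 : 1 ≤ R) (hR : Range U R)
    (hNF : ∀ F : Set (Site d), F.Finite → F.Nonempty → ¬ Stable U F) :
    ∃ δ : ℝ, 0 < δ ∧ ∀ p : unitInterval, ∀ n : ℕ, 1 ≤ n →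
      (n : ℝ) ^ (d - 1) * theta U n p < δ → ExpDecay U p := by
  obtain ⟨k, rfl⟩ : ∃ k, d = k + 1 := ⟨d - 1, by omega⟩
  simp only [Nat.add_sub_cancel]
  set D : ℕ := (3 ^ (k + 1)) ^ 5 ^ (k + 1) with hD
  have hD1 : 1 ≤ D := Nat.one_le_pow _ _ (by positivity)
  set κ : ℝ := (D : ℝ) * ((k + 1) * (2 * R) * 3 ^ k) with hκ
  have hRr : (1 : ℝ) ≤ R := by exact_mod_cast hR1
  have hDr : (1 : ℝ) ≤ D := by exact_mod_cast hD1
  have hκ0 : 0 < κ := by positivity
  -- the main case
  have main : ∀ p : unitInterval, ∀ n : ℕ, R ≤ n → (n : ℝ) ^ k * theta U n p < 1 / κ →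
      ExpDecay U p := by
    intro p n hRn hsm
    have hn : 1 ≤ n := hR1.trans hRn
    have hnr : (R : ℝ) ≤ n := by exact_mod_cast hRn
    have hth := theta_nonneg (U := U) n p
    set F : ℕ := (n + 2 * R) ^ (k + 1) - n ^ (k + 1) with hF
    have hFr : (F : ℝ) ≤ (k + 1) * (2 * R) * 3 ^ k * n ^ k := by
      rw [hF, Nat.cast_sub (Nat.pow_le_pow_left (by omega) _)]
      push_cast
      have h1 := pow_sub_pow_le' ((n : ℝ) + 2 * R) n (by positivity) (by linarith) k
      have h2 : ((n : ℝ) + 2 * R) ^ k ≤ (3 * n) ^ k := by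
        apply pow_le_pow_left₀ (by positivity)
        linarith
      calc ((n : ℝ) + 2 * R) ^ (k + 1) - (n : ℝ) ^ (k + 1)
          ≤ (k + 1) * ((n : ℝ) + 2 * R - n) * ((n : ℝ) + 2 * R) ^ k := h1
        _ ≤ (k + 1) * ((n : ℝ) + 2 * R - n) * (3 * n) ^ k := by
            apply mul_le_mul_of_nonneg_left h2
            have : (0 : ℝ) ≤ (n : ℝ) + 2 * R - n := by linarith
            positivity
        _ = _ := by rw [mul_pow]; ring
    set q : ℝ := D * (F * theta U n p) with hq
    have hq0 : 0 ≤ q := by positivity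
    have hq1 : q < 1 := by
      have h1 : q ≤ κ * ((n : ℝ) ^ k * theta U n p) := by
        calc q ≤ D * (((k + 1) * (2 * R) * 3 ^ k * n ^ k) * theta U n p) := by
              rw [hq]; gcongr
          _ = κ * ((n : ℝ) ^ k * theta U n p) := by rw [hκ]; ring
      have h2 : κ * ((n : ℝ) ^ k * theta U n p) < κ * (1 / κ) :=
        mul_lt_mul_of_pos_left hsm hκ0
      rw [mul_one_div_cancel hκ0.ne'] at h2
      linarith
    have hFle : (F : ℝ) * theta U n p ≤ 1 := by
      have : (F : ℝ) * theta U n p ≤ q := by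
        rw [hq]
        exact le_mul_of_one_le_left (by positivity) hDr
      linarith
    have e1 : (F : ENNReal) * P p (arm U n 0) = ENNReal.ofReal (F * theta U n p) := by
      rw [ofReal_theta, ENNReal.ofReal_mul (by positivity), ENNReal.ofReal_natCast]
    have e2 : (D : ENNReal) * ((F : ENNReal) * P p (arm U n 0)) = ENNReal.ofReal q := by
      rw [e1, hq, ENNReal.ofReal_mul (p := (D : ℝ)) (by positivity), ENNReal.ofReal_natCast]
    refine decay_aux (fun N => theta U N p) q (n * (5 ^ (k + 1) + 3)) ?_ hq0 hq1 ?_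
    · exact Nat.one_le_iff_ne_zero.2 (by positivity)
    · intro N
      set K := N / (n * (5 ^ (k + 1) + 3)) with hK
      rcases Nat.eq_zero_or_pos K with h0 | h0
      · rw [h0, pow_zero]
        exact theta_le_one N p
      · have hN : n * (5 ^ (k + 1) * K + 3) ≤ N := by
          calc n * (5 ^ (k + 1) * K + 3) ≤ n * (5 ^ (k + 1) * K + 3 * K) := by
                gcongr; omega
            _ = (n * (5 ^ (k + 1) + 3)) * K := by ring
            _ ≤ N := Nat.mul_div_le _ _
        have h1 := arm_le hR hn hRn hNF p (by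
          change (F : ENNReal) * P p (arm U n 0) ≤ 1
          rw [e1]
          exact ENNReal.ofReal_le_one.2 hFle) K N hN 0
        change P p (arm U N 0) ≤ ((D : ENNReal) * ((F : ENNReal) * P p (arm U n 0))) ^ K at h1
        rw [e2, ← ENNReal.ofReal_pow hq0] at h1
        exact ENNReal.toReal_le_of_le_ofReal (by positivity) h1
  have hRk : (1 : ℝ) ≤ (R : ℝ) ^ k := one_le_pow₀ hRr
  refine ⟨1 / κ / (R : ℝ) ^ k, by positivity, fun p n hn hsm => ?_⟩
  rcases le_total R n with h | h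
  · refine main p n h (hsm.trans_le ?_)
    exact div_le_self (by positivity) hRk
  · refine main p R le_rfl ?_
    have hnr : (1 : ℝ) ≤ n := by exact_mod_cast hn
    have h1 : theta U R p ≤ (n : ℝ) ^ k * theta U n p :=
      (theta_anti p h).trans (le_mul_of_one_le_left (theta_nonneg _ _) (one_le_pow₀ hnr))
    have h2 : (R : ℝ) ^ k * theta U R p < (R : ℝ) ^ k * (1 / κ / (R : ℝ) ^ k) :=
      mul_lt_mul_of_pos_left (h1.trans_lt hsm) (by positivity)
    have h3 : (R : ℝ) ^ k * (1 / κ / (R : ℝ) ^ k) = 1 / κ := by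
      field_simp
    rwa [h3] at h2

lemma ExpDecay.tendsto {p : unitInterval} (h : ExpDecay U p) (k : ℕ) :
    Tendsto (fun n : ℕ => (n : ℝ) ^ k * theta U n p) atTop (𝓝 0) := by
  obtain ⟨C, r, hr0, hr1, h⟩ := h
  have h1 : Tendsto (fun n : ℕ => C * ((n : ℝ) ^ k * r ^ n)) atTop (𝓝 0) := by
    have := (tendsto_pow_const_mul_const_pow_of_lt_one k hr0.le hr1).const_mul C
    rwa [mul_zero] at this
  refine squeeze_zero (fun n => mul_nonneg (by positivity) (theta_nonneg _ _)) (fun n => ?_) h1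
  calc (n : ℝ) ^ k * theta U n p ≤ (n : ℝ) ^ k * (C * r ^ n) := by
        gcongr; exact h n
    _ = _ := by ring

lemma ExpDecay.full {p : unitInterval} (h : ExpDecay U p) :
    P p {ω : Om d | cl U (seed ω) = Set.univ} = 1 := by
  refine full_of_small p fun δ hδ => ?_
  have h1 := h.tendsto 0
  simp only [pow_zero, one_mul] at h1
  rcases eq_or_ne δ ⊤ with rfl | hδt
  · exact ⟨0, le_top⟩
  have hδ' : 0 < δ.toReal := ENNReal.toReal_pos hδ.ne' hδt
  obtain ⟨N, hN⟩ := ((tendsto_order.1 h1).2 _ hδ').exists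
  refine ⟨N, ?_⟩
  rw [ofReal_theta]
  exact ENNReal.ofReal_le_of_le_toReal hN.le

theorem isOpen_expDecay (hd : 1 ≤ d)
    (hNF : ∀ F : Set (Site d), F.Finite → F.Nonempty → ¬ Stable U F) :
    IsOpen {p | ExpDecay U p} := by
  obtain ⟨R, hR1, hR⟩ := exists_range U
  obtain ⟨δ, hδ, h⟩ := criterion_real hd hR1 hR hNF
  rw [isOpen_iff_mem_nhds]
  intro p hp
  obtain ⟨n, hn⟩ := (((tendsto_order.1 (ExpDecay.tendsto hp (d - 1))).2 δ hδ).and
    (eventually_ge_atTop 1)).exists
  have hc : Continuous fun p => (n : ℝ) ^ (d - 1) * theta U n p :=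
    continuous_const.mul (continuous_theta n)
  filter_upwards [hc.continuousAt.eventually_lt_const hn.1] with p' hp'
  exact h p' n hn.2 hp'

lemma expDecay_one : ExpDecay U 1 :=
  ⟨0, 1 / 2, by norm_num, by norm_num, fun n => by rw [theta_one]; simp⟩

lemma pc_le {p : unitInterval} (h : ExpDecay U p) : pc U ≤ p := sInf_le h.full

lemma exists_lt_of_open {s : Set unitInterval} (hs : IsOpen s) {p : unitInterval} (hp : p ∈ s)
    (h0 : 0 < p) : ∃ p' ∈ s, p' < p := by
  obtain ⟨l, hl, hl2⟩ := exists_Ioc_subset_of_mem_nhds (hs.mem_nhds hp) ⟨0, h0⟩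
  obtain ⟨p', h1, h2⟩ := exists_between hl
  exact ⟨p', hl2 ⟨h1, h2.le⟩, h2⟩

theorem not_expDecay (hd : 1 ≤ d) (hU : ∅ ∉ U)
    (hNF : ∀ F : Set (Site d), F.Finite → F.Nonempty → ¬ Stable U F) {p : unitInterval}
    (hp : p ≤ pc U) : ¬ ExpDecay U p := by
  intro h
  have h1 : p = pc U := le_antisymm hp (pc_le h)
  rcases eq_or_ne p 0 with h0 | h0
  · rw [h0] at h
    have h2 := h.tendsto 0
    simp only [pow_zero, one_mul, theta_zero hU] at h2
    exact one_ne_zero (tendsto_nhds_unique tendsto_const_nhds h2)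
  · obtain ⟨p', h2, h3⟩ := exists_lt_of_open (isOpen_expDecay hd hNF) h
      (lt_of_le_of_ne p.2.1 (Ne.symm h0))
    have h4 := pc_le h2
    rw [← h1] at h4
    exact absurd h4 (not_le.2 h3)

theorem pc_lt_one (hd : 1 ≤ d)
    (hNF : ∀ F : Set (Site d), F.Finite → F.Nonempty → ¬ Stable U F) : pc U < 1 := by
  obtain ⟨p', h2, h3⟩ := exists_lt_of_open (isOpen_expDecay hd hNF)
    (show (1 : unitInterval) ∈ {p | ExpDecay U p} from expDecay_one) one_pos
  exact (pc_le h2).trans_lt h3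

theorem pc_eq_one {F : Set (Site d)} (hF : F.Finite) (hne : F.Nonempty) (hst : Stable U F) :
    pc U = 1 := by
  refine le_antisymm le_top (le_sInf fun p hp => ?_)
  by_contra hlt
  rw [not_le] at hlt
  have hlt' : (p : ℝ) < 1 := hlt
  have h1 := P_healthy p hF.toFinset
  have h2 : 0 < P p {ω : Om d | ∀ x ∈ hF.toFinset, ω x = false} := by
    rw [h1]
    exact ENNReal.pow_pos (ENNReal.ofReal_pos.2 (by linarith)) _
  have h3 : {ω : Om d | ∀ x ∈ hF.toFinset, ω x = false} ⊆
      {ω : Om d | cl U (seed ω) = Set.univ}ᶜ := by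
    intro ω hω h4
    simp only [Set.mem_ofPred_eq] at hω h4
    have h5 : Disjoint (seed ω) F := by
      rw [Set.disjoint_left]
      intro x hx hxF
      have := hω x (hF.mem_toFinset.2 hxF)
      simp only [seed, Set.mem_ofPred_eq] at hx
      rw [this] at hx
      exact absurd hx (by simp)
    have h6 := hst.disjoint_cl h5
    rw [h4, Set.univ_disjoint] at h6
    exact hne.ne_empty h6
  have h4 : P p {ω : Om d | cl U (seed ω) = Set.univ}ᶜ = 0 :=
    (prob_compl_eq_zero_iff meas_full).2 hp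
  exact h2.ne' (measure_mono_null h3 h4)

end Pool.Agent.H37Z.UB
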