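import Pool.Agent.H37Z.UB.Thresh

set_option autoImplicit false

/-!
# `U`-bootstrap percolation on `ℤ ^ d`: the occupation time
-/

open MeasureTheory ProbabilityTheory Filter Topology

namespace Pool.Agent.H37Z.UB

variable {d : ℕ} {U : Finset (Finset (Site d))}

/-- The occupation time of the origin: `T = min {t : 0 ∈ A_t}`, and `T = ∞` if `0 ∉ [A]`. -/
noncomputable def T (U : Finset (Finset (Site d))) (ω : Om d) : ENNReal :=
  ⨅ (t : ℕ) (_ : (0 : Site d) ∈ iter U (seed ω) t), (t : ENNReal)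

lemma T_cases (ω : Om d) :
    ((∀ n, (0 : Site d) ∉ iter U (seed ω) n) ∧ T U ω = ⊤) ∨
      ∃ m : ℕ, T U ω = m ∧ ∀ n, (0 : Site d) ∈ iter U (seed ω) n ↔ m ≤ n := by
  classical
  by_cases h : ∃ n, (0 : Site d) ∈ iter U (seed ω) n
  · right
    refine ⟨Nat.find h, le_antisymm (iInf₂_le (Nat.find h) (Nat.find_spec h)) ?_, fun n => ?_⟩
    · exact le_iInf₂ fun t ht => by exact_mod_cast Nat.find_min' h ht
    · exact ⟨fun hn => Nat.find_min' h hn, fun hn => iter_le _ hn (Nat.find_spec h)⟩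
  · left
    push Not at h
    exact ⟨h, by simp [T, h]⟩

lemma lt_T_iff (ω : Om d) (n : ℕ) : (n : ENNReal) < T U ω ↔ (0 : Site d) ∉ iter U (seed ω) n := by
  rcases T_cases (U := U) ω with ⟨h, hT⟩ | ⟨m, hT, h⟩
  · simp [hT, h]
  · rw [hT, h n, not_le]
    exact Nat.cast_lt

lemma meas_T (n : ℕ) : MeasurableSet {ω : Om d | (n : ENNReal) < T U ω} := by
  simp_rw [lt_T_iff]
  exact (meas_iter meas_seed n 0).compl

/-- `P_p(T > n) ≥ θ_{R n}(p)`. -/
lemma theta_le_T {R : ℕ} (hR : Range U R) (p : unitInterval) (n : ℕ) :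
    theta U (R * n) p ≤ (P p {ω : Om d | (n : ENNReal) < T U ω}).toReal := by
  refine ENNReal.toReal_mono (measure_ne_top _ _) (measure_mono ?_)
  intro ω hω
  rw [Set.mem_ofPred_eq, lt_T_iff]
  intro h
  exact hω (mem_cl.2 ⟨n, iter_local hR _ n 0 h⟩)

/-- The lower bounds without exponential decay. -/
theorem lower_bounds (hd : 1 ≤ d)
    (hNF : ∀ F : Set (Site d), F.Finite → F.Nonempty → ¬ Stable U F) :
    ∃ c : ℝ, 0 < c ∧ ∀ p : unitInterval, ¬ ExpDecay U p → ∀ n : ℕ, 1 ≤ n →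
      c / (n : ℝ) ^ (d - 1) ≤ theta U n p ∧
      c / (n : ℝ) ^ (d - 1) ≤ (P p {ω : Om d | (n : ENNReal) < T U ω}).toReal := by
  obtain ⟨R, hR1, hR⟩ := exists_range U
  obtain ⟨δ, hδ, h⟩ := criterion_real hd hR1 hR hNF
  have hRr : (1 : ℝ) ≤ R := by exact_mod_cast hR1
  have hRk : (1 : ℝ) ≤ (R : ℝ) ^ (d - 1) := one_le_pow₀ hRr
  refine ⟨δ / (R : ℝ) ^ (d - 1), by positivity, fun p hp n hn => ?_⟩
  have hnr : (1 : ℝ) ≤ n := by exact_mod_cast hn
  have h1 : ∀ m : ℕ, 1 ≤ m → δ / (m : ℝ) ^ (d - 1) ≤ theta U m p := by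
    intro m hm
    by_contra hcon
    rw [not_le] at hcon
    refine hp (h p m hm ?_)
    have hm' : (0 : ℝ) < m := by exact_mod_cast hm
    rw [lt_div_iff₀ (by positivity)] at hcon
    rwa [mul_comm] at hcon
  constructor
  · refine le_trans ?_ (h1 n hn)
    apply div_le_div_of_nonneg_right (div_le_self hδ.le hRk) (by positivity)
  · refine le_trans ?_ (theta_le_T hR p n)
    refine le_trans (le_of_eq ?_) (h1 (R * n) (Nat.one_le_iff_ne_zero.2 (by positivity)))
    push_cast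
    rw [mul_pow, div_div]

/-- Polynomial lower bounds for the tail make the moment infinite. -/
theorem lintegral_eq_top {k : ℕ} (hk : 1 ≤ k) (p : unitInterval) {c : ℝ} (hc : 0 < c)
    (h : ∀ n : ℕ, 1 ≤ n → c / (n : ℝ) ^ k ≤ (P p {ω : Om d | (n : ENNReal) < T U ω}).toReal) :
    ∫⁻ ω, T U ω ^ k ∂(P p) = ⊤ := by
  classical
  obtain ⟨l, rfl⟩ : ∃ l, k = l + 1 := ⟨k - 1, by omega⟩
  -- pointwise bound
  have hpt : ∀ (N : ℕ) (ω : Om d), ∑ i ∈ Finset.range N,
      {ω : Om d | ((i + 1 : ℕ) : ENNReal) < T U ω}.indicator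
        (fun _ => ((i + 1 : ℕ) : ENNReal) ^ l) ω ≤ T U ω ^ (l + 1) := by
    intro N ω
    rcases T_cases (U := U) ω with ⟨_, hT⟩ | ⟨m, hT, _⟩
    · rw [hT]; simp
    · have h1 : ∀ i : ℕ, {ω : Om d | ((i + 1 : ℕ) : ENNReal) < T U ω}.indicator
          (fun _ => ((i + 1 : ℕ) : ENNReal) ^ l) ω ≤ if i ∈ Finset.range m then (m : ENNReal) ^ l
            else 0 := by
        intro i
        by_cases hi : ω ∈ {ω : Om d | ((i + 1 : ℕ) : ENNReal) < T U ω}
        · rw [Set.indicator_of_mem hi]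
          rw [Set.mem_ofPred_eq, hT, Nat.cast_lt] at hi
          rw [if_pos (Finset.mem_range.2 (by omega))]
          gcongr
        · rw [Set.indicator_of_notMem hi]
          exact zero_le
      calc _ ≤ ∑ i ∈ Finset.range N, if i ∈ Finset.range m then (m : ENNReal) ^ l else 0 :=
            Finset.sum_le_sum fun i _ => h1 i
        _ = ∑ i ∈ Finset.range N ∩ Finset.range m, (m : ENNReal) ^ l := by
            rw [Finset.sum_ite_mem]
        _ ≤ ∑ i ∈ Finset.range m, (m : ENNReal) ^ l :=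
            Finset.sum_le_sum_of_subset Finset.inter_subset_right
        _ = T U ω ^ (l + 1) := by
            rw [Finset.sum_const, Finset.card_range, nsmul_eq_mul, hT, pow_succ, mul_comm]
  have hint : ∀ N : ℕ, ENNReal.ofReal (c * ∑ i ∈ Finset.range N, 1 / ((i : ℝ) + 1)) ≤
      ∫⁻ ω, T U ω ^ (l + 1) ∂(P p) := by
    intro N
    refine le_trans ?_ (lintegral_mono (hpt N))
    rw [lintegral_finsetSum _ fun i _ => measurable_const.indicator (meas_T (i + 1)),
      Finset.mul_sum, ENNReal.ofReal_sum_of_nonneg fun i _ => by positivity]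
    refine Finset.sum_le_sum fun i _ => ?_
    rw [lintegral_indicator_const (meas_T (i + 1))]
    have h1 := h (i + 1) (by omega)
    have h2 : P p {ω : Om d | ((i + 1 : ℕ) : ENNReal) < T U ω} =
        ENNReal.ofReal (P p {ω : Om d | ((i + 1 : ℕ) : ENNReal) < T U ω}).toReal :=
      (ENNReal.ofReal_toReal (measure_ne_top _ _)).symm
    rw [h2]
    have h3 : ((i + 1 : ℕ) : ENNReal) ^ l = ENNReal.ofReal (((i + 1 : ℕ) : ℝ) ^ l) := by
      rw [ENNReal.ofReal_pow (by positivity), ENNReal.ofReal_natCast]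
    rw [h3, ← ENNReal.ofReal_mul (by positivity)]
    refine ENNReal.ofReal_le_ofReal ?_
    have h4 : (0 : ℝ) < ((i + 1 : ℕ) : ℝ) := by positivity
    calc c * (1 / ((i : ℝ) + 1)) = ((i + 1 : ℕ) : ℝ) ^ l * (c / ((i + 1 : ℕ) : ℝ) ^ (l + 1)) := by
          push_cast
          field_simp
          ring
      _ ≤ _ := by gcongr
  by_contra hne
  have h1 : Tendsto (fun N : ℕ => c * ∑ i ∈ Finset.range N, 1 / ((i : ℝ) + 1)) atTop atTop :=
    Real.tendsto_sum_range_one_div_nat_succ_atTop.const_mul_atTop hc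
  obtain ⟨N, hN⟩ := (h1.eventually_gt_atTop (∫⁻ ω, T U ω ^ (l + 1) ∂(P p)).toReal).exists
  have h2 := (ENNReal.ofReal_le_iff_le_toReal hne).1 (hint N)
  linarith

lemma T_one {k : ℕ} (hk : 1 ≤ k) : ∫⁻ ω, T U ω ^ k ∂(P (d := d) 1) = 0 := by
  rw [P_one, lintegral_dirac]
  have : T U (fun _ => true : Om d) = 0 := by
    refine le_antisymm ?_ zero_le
    refine (iInf₂_le 0 ?_).trans (by simp)
    rfl
  rw [this]
  exact zero_pow (by omega)

end Pool.Agent.H37Z.UB
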